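import Pool.Agent.Helper52_KP.Sub

set_option autoImplicit false

open Pool.Agent.Helper454.Kauf Pool.Agent.Helper52_KP

namespace Pool.Agent.Results.MP_7f503d_gt.CongruentFamilies

/-- `Λ` is Kauffman's regular isotopy invariant with values in `ℤ[a^{±1}, z^{±1}]`: it satisfies
Kauffman's rules and `Λ = 1` for the crossingless circle. -/
def IsKauffmanInvariant (Λ : Word → Raz) : Prop := KauffmanRules Λ ∧ Λ circle = 1

/-- `F` is the Kauffman polynomial `F_K(a, z) = a^{-w(K)} Λ_K(a, z)` of the knot with the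
diagram `K`: there are a Kauffman invariant `Λ` and a writhe `t` of `K`, and `F = a^{-t} Λ(K)` for
all of these. -/
def IsKauffmanPolynomialOf (K : Word) (F : Raz) : Prop :=
  (∃ (Λ : Word → Raz) (t : ℤ), IsKauffmanInvariant Λ ∧ HasWrithe K t) ∧
    ∀ (Λ : Word → Raz) (t : ℤ), IsKauffmanInvariant Λ → HasWrithe K t → F = normalised t (Λ K)

/-- The Chebyshev polynomials in `z`: `chebU 0 = 0`, `chebU 1 = 1` and
`chebU (n + 2) = z chebU (n + 1) - chebU n`. If `z = 2 cos x`, then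
`chebU n = sin (n x) / sin x`. -/
noncomputable def chebU : ℕ → Raz
  | 0 => 0
  | 1 => 1
  | n + 2 => zVar * chebU (n + 1) - chebU n

/-- The product of `a² + 1`, `a² + a z + 1` and `(a² + 1)² - a² (z³ - 3 z)²`. -/
noncomputable def Psi : Raz :=
  (aPow 2 + 1) * (aPow 2 + aPow 1 * zVar + 1) *
    ((aPow 2 + 1) ^ 2 - aPow 2 * (zVar ^ 3 - 3 * zVar) ^ 2)

/-- The subring `ℤ[a^{±1}, z]` of `ℤ[a^{±1}, z^{±1}]`: it is generated by `z`, `a` and `a⁻¹`. -/
noncomputable def PolyInZ : Subring Raz := Subring.closure {zVar, aPow 1, aPow (-1)}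

theorem chebU_eq (n : ℕ) : chebU n = U zVar n := by
  induction n using Nat.strong_induction_on with
  | _ n ih =>
    match n with
    | 0 => rfl
    | 1 => rfl
    | n + 2 => rw [chebU, U, ih (n + 1) (by omega), ih n (by omega)]

/-- the unique value of a Kauffman invariant -/
theorem value_unique {Λ : Word → Raz} (h : IsKauffmanInvariant Λ) (i n : ℕ) :
    Λ (KW i n) = Ex.Lam Raz (KW i n) := by
  obtain ⟨e, he⟩ := Rep.Mid i
  have e1 := value_mid h.1 h.2 (he n) (closed_KW i n)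
  have e2 := value_mid Ex.Lam_rules Ex.Lam_circle (he n) (closed_KW i n)
  exact mul_left_cancel₀ (mul_ne_zero zVar_ne N_ne) (e1.trans e2.symm)

theorem isPoly (i n : ℕ) :
    IsKauffmanPolynomialOf (KW i n) (normalised (wr0 i) (Ex.Lam Raz (KW i n))) := by
  refine ⟨⟨Ex.Lam Raz, wr0 i, ⟨Ex.Lam_rules, Ex.Lam_circle⟩, hasWrithe_KW i n⟩, ?_⟩
  intro Λ t hΛ ht
  rw [writhe_unique_KW i n t ht, value_unique hΛ]

theorem Kc_eq : Kc = al ^ 4 * ((aPow 2 + 1) * (aPow 2 + aPow 1 * (zVar ^ 3 - 3 * zVar) + 1)) := by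
  have h2 : aPow 2 = aPow 1 ^ 2 := by rw [pow_two, aPow_mul]; rfl
  have h := a_al
  rw [Kc, h2]
  generalize aPow 1 = a at *
  generalize al = b at *
  have e1 : a ^ 2 * b ^ 2 = 1 := by rw [← mul_pow, h, one_pow]
  have e2 : b ^ 2 * (a ^ 2 + 1) = 1 + b ^ 2 := by linear_combination e1
  have e3 : b ^ 2 * (a ^ 2 + a * (zVar ^ 3 - 3 * zVar) + 1) =
      1 + b * (zVar ^ 3 - 3 * zVar) + b ^ 2 := by
    linear_combination e1 + b * (zVar ^ 3 - 3 * zVar) * h
  rw [← e2, ← e3]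
  ring

/-- **Main theorem.** For all `N` and `m ≥ 1` there are infinitely many pairwise non-isotopic knots
such that the difference of the Kauffman polynomials of any two of them lies in
`z^N U_m(z)² (a² + 1) (a² + a z + 1) ((a² + 1)² - a² (z³ - 3 z)²) ℤ[a^{±1}, z]`. -/
theorem result (N m : ℕ) (hm : 1 ≤ m) :
    ∃ (K : ℕ → Word) (F : ℕ → Raz),
      (∀ j, IsKnot (K j)) ∧ (∀ i j, i ≠ j → ¬ Isotopic (K i) (K j)) ∧
      (∀ j, IsKauffmanPolynomialOf (K j) (F j)) ∧
      ∀ i j, ∃ G ∈ PolyInZ, F i - F j = zVar ^ N * chebU m ^ 2 * Psi * G := by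
  refine ⟨fun j => KW N (m * j), fun j => normalised (wr0 N) (Ex.Lam Raz (KW N (m * j))),
    fun j => isKnot_KW _ _, fun i j hij => not_isotopic _ _ _ ?_, fun j => isPoly _ _, ?_⟩
  · intro h
    exact hij (Nat.eq_of_mul_eq_mul_left hm h)
  · intro i j
    obtain ⟨c, c_mem, hc⟩ := lS_dvd N
    obtain ⟨ci, ci_mem, hi⟩ := U_S m i
    obtain ⟨cj, cj_mem, hj⟩ := U_S m j
    have e1 := value_diff Ex.Lam_rules Ex.Lam_circle N (m * i)
    have e2 := value_diff Ex.Lam_rules Ex.Lam_circle N (m * j)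
    rw [hi] at e1
    rw [hj] at e2
    rw [chebU_eq]
    have z_mem := z_mem
    have al_mem := al_mem
    have w_mem := aPow_mem (-wr0 N)
    refine ⟨aPow (-wr0 N) * (zVar ^ N * c * (cj ^ 2 - ci ^ 2) * al ^ 4 *
      ((1 - zVar ^ 2) * al - zVar)), ?_, ?_⟩
    · show _ ∈ noNegZ
      exact mul_mem w_mem (mul_mem (mul_mem (mul_mem (mul_mem (pow_mem z_mem _) c_mem)
        (sub_mem (pow_mem cj_mem _) (pow_mem ci_mem _))) (pow_mem al_mem _))
        (sub_mem (mul_mem (sub_mem (one_mem _) (pow_mem z_mem _)) al_mem) z_mem))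
    · apply mul_left_cancel₀ zVar_ne
      have h2 : aPow 2 = aPow 1 ^ 2 := by rw [pow_two, aPow_mul]; rfl
      rw [hc, Lm_eq, Kc_eq] at e1 e2
      show zVar * (aPow (-wr0 N) * Ex.Lam Raz (KW N (m * i)) -
        aPow (-wr0 N) * Ex.Lam Raz (KW N (m * j))) = _
      have e3 : zVar ^ (2 * N + 1) = zVar ^ N * zVar ^ N * zVar := by ring
      rw [e3] at e1 e2
      rw [Psi]
      generalize aPow (-wr0 N) = w at *
      rw [h2] at e1 e2 ⊢
      generalize aPow 1 = a at *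
      linear_combination w * (e1 - e2)

end Pool.Agent.Results.MP_7f503d_gt.CongruentFamilies
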